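import Pool.Agent.H684R3.Smo.Done

set_option autoImplicit false

/-!
# Orbits of matrices: the orbit sequence `w M^n x` (helper77)
-/

namespace Pool.Agent.R77.Orb
open Matrix Pool.Agent.H884R2.Sko Pool.Agent.H684R3.Smo

section field

variable {K : Type*} [Field K] {d : ℕ}

/-- the sequence `w M^n x` -/
def orb {R : Type*} [CommRing R] {d : ℕ} (M : Matrix (Fin d) (Fin d) R) (x w : Fin d → R) (n : ℕ) :
    R := w ⬝ᵥ ((M ^ n) *ᵥ x)

/-- the companion matrix -/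
def cmp (c : Fin d → K) : Matrix (Fin d) (Fin d) K :=
  Matrix.of fun i j => if (j : ℕ) + 1 < d then (if (i : ℕ) = j + 1 then 1 else 0) else c i

theorem cmp_single_lt (c : Fin d → K) (j : ℕ) (hj : j + 1 < d) :
    cmp c *ᵥ Pi.single (⟨j, by omega⟩ : Fin d) 1 = Pi.single (⟨j + 1, hj⟩ : Fin d) 1 := by
  ext i
  rw [Matrix.mulVec_single_one]
  simp only [cmp, Matrix.col_apply, Matrix.of_apply, if_pos hj, Pi.single_apply, Fin.ext_iff]

theorem cmp_single_last (c : Fin d → K) (hd : 1 ≤ d) :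
    cmp c *ᵥ Pi.single (⟨d - 1, by omega⟩ : Fin d) 1 = c := by
  ext i
  rw [Matrix.mulVec_single_one]
  have h : ¬ (d - 1 + 1 < d) := by omega
  simp only [cmp, Matrix.col_apply, Matrix.of_apply, if_neg h]

theorem cmp_pow (c : Fin d → K) (hd : 1 ≤ d) (i : ℕ) (hi : i < d) :
    (cmp c ^ i) *ᵥ Pi.single (⟨0, hd⟩ : Fin d) 1 = Pi.single (⟨i, hi⟩ : Fin d) 1 := by
  induction i with
  | zero => rw [pow_zero, Matrix.one_mulVec]
  | succ i ih =>
    rw [pow_succ', ← Matrix.mulVec_mulVec, ih (by omega), cmp_single_lt c i hi]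

theorem cmp_pow_d (c : Fin d → K) (hd : 1 ≤ d) :
    (cmp c ^ d) *ᵥ Pi.single (⟨0, hd⟩ : Fin d) 1 = c := by
  obtain ⟨e, rfl⟩ : ∃ e, d = e + 1 := ⟨d - 1, by omega⟩
  rw [pow_succ', ← Matrix.mulVec_mulVec, cmp_pow c hd e (by omega)]
  exact cmp_single_last c hd

theorem vec_eq_sum (v : Fin d → K) : v = ∑ i, v i • (Pi.single i 1 : Fin d → K) := by
  ext j
  simp [Finset.sum_apply, Pi.single_apply]

theorem cmp_orb (c a : Fin d → K) (hd : 1 ≤ d) (n : ℕ) :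
    orb (cmp c) (Pi.single (⟨0, hd⟩ : Fin d) 1) a n = seq c a n := by
  apply eq_seq
  · intro n
    unfold orb
    have h1 : (cmp c ^ (n + d)) *ᵥ Pi.single (⟨0, hd⟩ : Fin d) 1 =
        ∑ i : Fin d, c i • ((cmp c ^ (n + (i : ℕ))) *ᵥ Pi.single (⟨0, hd⟩ : Fin d) 1) := by
      rw [pow_add, ← Matrix.mulVec_mulVec, cmp_pow_d c hd]
      have h2 : (cmp c ^ n) *ᵥ c = (cmp c ^ n) *ᵥ ∑ i, c i • (Pi.single i 1 : Fin d → K) :=
        congrArg (fun v => (cmp c ^ n) *ᵥ v) (vec_eq_sum c)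
      rw [h2, Matrix.mulVec_sum]
      refine Finset.sum_congr rfl fun i _ => ?_
      rw [Matrix.mulVec_smul, pow_add, ← Matrix.mulVec_mulVec, cmp_pow c hd i i.2]
    rw [h1, dotProduct_sum]
    refine Finset.sum_congr rfl fun i _ => ?_
    rw [dotProduct_smul, smul_eq_mul]
  · intro i
    unfold orb
    rw [cmp_pow c hd i i.2]
    simp

/-- conjugation -/
theorem orb_conj (g : GL (Fin d) K) (M : Matrix (Fin d) (Fin d) K) (x w : Fin d → K) (n : ℕ) :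
    orb ((g : Matrix _ _ K) * M * ((g⁻¹ : GL (Fin d) K) : Matrix _ _ K))
      ((g : Matrix _ _ K) *ᵥ x) (w ᵥ* ((g⁻¹ : GL (Fin d) K) : Matrix _ _ K)) n = orb M x w n := by
  unfold orb
  have h : ((g : Matrix _ _ K) * M * ((g⁻¹ : GL (Fin d) K) : Matrix _ _ K)) ^ n =
      (g : Matrix _ _ K) * M ^ n * ((g⁻¹ : GL (Fin d) K) : Matrix _ _ K) := Units.conj_pow g M n
  have hinv : ((g⁻¹ : GL (Fin d) K) : Matrix (Fin d) (Fin d) K) * (g : Matrix _ _ K) = 1 :=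
    g.inv_mul
  have e1 : ∀ v : Fin d → K, ((g⁻¹ : GL (Fin d) K) : Matrix (Fin d) (Fin d) K) *ᵥ
      ((g : Matrix (Fin d) (Fin d) K) *ᵥ v) = v := fun v => by
    rw [Matrix.mulVec_mulVec, hinv, Matrix.one_mulVec]
  rw [h, ← Matrix.mulVec_mulVec, e1, ← Matrix.mulVec_mulVec, ← Matrix.dotProduct_mulVec, e1]

/-- the triple of the companion matrix, conjugated -/
def tri (hd : 1 ≤ d) (y : (Fin d → K) × (Fin d → K) × GL (Fin d) K) :
    Matrix (Fin d) (Fin d) K × (Fin d → K) × (Fin d → K) :=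
  ((y.2.2 : Matrix _ _ K) * cmp y.1 * ((y.2.2⁻¹ : GL (Fin d) K) : Matrix _ _ K),
    (y.2.2 : Matrix _ _ K) *ᵥ Pi.single (⟨0, hd⟩ : Fin d) 1,
    y.2.1 ᵥ* ((y.2.2⁻¹ : GL (Fin d) K) : Matrix _ _ K))

theorem tri_orb (hd : 1 ≤ d) (y : (Fin d → K) × (Fin d → K) × GL (Fin d) K) (n : ℕ) :
    orb (tri hd y).1 (tri hd y).2.1 (tri hd y).2.2 n = seq y.1 y.2.1 n := by
  unfold tri
  rw [orb_conj, cmp_orb]

theorem tri_col (hd : 1 ≤ d) (y : (Fin d → K) × (Fin d → K) × GL (Fin d) K) (i : ℕ) :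
    ((tri hd y).1 ^ i) *ᵥ (tri hd y).2.1 =
      (y.2.2 : Matrix _ _ K) *ᵥ ((cmp y.1 ^ i) *ᵥ Pi.single (⟨0, hd⟩ : Fin d) 1) := by
  unfold tri
  have h : ((y.2.2 : Matrix _ _ K) * cmp y.1 * ((y.2.2⁻¹ : GL (Fin d) K) : Matrix _ _ K)) ^ i =
      (y.2.2 : Matrix _ _ K) * cmp y.1 ^ i * ((y.2.2⁻¹ : GL (Fin d) K) : Matrix _ _ K) :=
    Units.conj_pow y.2.2 _ i
  have hinv : ((y.2.2⁻¹ : GL (Fin d) K) : Matrix (Fin d) (Fin d) K) * (y.2.2 : Matrix _ _ K) = 1 :=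
    y.2.2.inv_mul
  have e1 : ∀ v : Fin d → K, ((y.2.2⁻¹ : GL (Fin d) K) : Matrix (Fin d) (Fin d) K) *ᵥ
      ((y.2.2 : Matrix (Fin d) (Fin d) K) *ᵥ v) = v := fun v => by
    rw [Matrix.mulVec_mulVec, hinv, Matrix.one_mulVec]
  simp only
  rw [h, ← Matrix.mulVec_mulVec, e1, ← Matrix.mulVec_mulVec]

theorem tri_inj (hd : 1 ≤ d) : Function.Injective (tri (K := K) hd) := by
  intro y z h
  have hP : y.2.2 = z.2.2 := by
    apply Units.ext
    ext i j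
    have h1 := tri_col hd y j
    have h2 := tri_col hd z j
    rw [h, h2, cmp_pow _ hd j j.2, cmp_pow _ hd j j.2, Matrix.mulVec_single_one,
      Matrix.mulVec_single_one] at h1
    exact (congrFun h1 i).symm
  have hinv : ((z.2.2⁻¹ : GL (Fin d) K) : Matrix (Fin d) (Fin d) K) * (z.2.2 : Matrix _ _ K) = 1 :=
    z.2.2.inv_mul
  have hc : y.1 = z.1 := by
    have h1 := tri_col hd y d
    have h2 := tri_col hd z d
    rw [h, h2, cmp_pow_d _ hd, cmp_pow_d _ hd, hP] at h1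
    have h3 := congrArg (fun v => ((z.2.2⁻¹ : GL (Fin d) K) : Matrix (Fin d) (Fin d) K) *ᵥ v) h1
    simp only [Matrix.mulVec_mulVec, hinv, Matrix.one_mulVec] at h3
    exact h3.symm
  have ha : y.2.1 = z.2.1 := by
    have h1 : (tri hd y).2.2 = (tri hd z).2.2 := by rw [h]
    unfold tri at h1
    simp only [hP] at h1
    have h3 := congrArg (fun v => v ᵥ* ((z.2.2 : GL (Fin d) K) : Matrix (Fin d) (Fin d) K)) h1
    simp only [Matrix.vecMul_vecMul, hinv, Matrix.vecMul_one] at h3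
    exact h3
  exact Prod.ext hc (Prod.ext ha hP)

/-- transitivity on the pairs `(x, w)` with `w x ≠ 0` -/
theorem exists_gl (x w x' w' : Fin d → K) (h : w ⬝ᵥ x ≠ 0) (h' : w' ⬝ᵥ x' ≠ 0) :
    ∃ (g : GL (Fin d) K) (s : K), s ≠ 0 ∧ (g : Matrix _ _ K) *ᵥ x = s • x' ∧
      w' ᵥ* (g : Matrix _ _ K) = w := by
  -- a vector which is not killed by `w` and `w'`
  obtain ⟨z, hz, hz'⟩ : ∃ z : Fin d → K, w ⬝ᵥ z ≠ 0 ∧ w' ⬝ᵥ z ≠ 0 := by
    by_cases h1 : w' ⬝ᵥ x = 0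
    · by_cases h2 : w ⬝ᵥ x' = 0
      · exact ⟨x + x', by rw [dotProduct_add, h2, add_zero]; exact h,
          by rw [dotProduct_add, h1, zero_add]; exact h'⟩
      · exact ⟨x', h2, h'⟩
    · exact ⟨x, h, h1⟩
  -- `A` maps `w'` to `w`
  set α : K := (w' ⬝ᵥ z)⁻¹ with hα
  set β : K := (w ⬝ᵥ z)⁻¹ with hβ
  have hmul : ∀ (p q r s : Fin d → K), vecMulVec p q * vecMulVec r s = (q ⬝ᵥ r) • vecMulVec p s :=
    fun p q r s => by rw [Matrix.vecMulVec_mul_vecMulVec, Matrix.vecMulVec_smul]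
  have key : ∀ (p q : Fin d → K) (a b : K), a + b + a * b * (q ⬝ᵥ p) = 0 →
      (1 + a • vecMulVec p q) * (1 + b • vecMulVec p q) = 1 := by
    intro p q a b hab
    rw [mul_add, add_mul, add_mul, one_mul, mul_one, one_mul, Matrix.smul_mul, Matrix.mul_smul,
      hmul, smul_smul, smul_smul]
    have : (1 : Matrix (Fin d) (Fin d) K) + a • vecMulVec p q +
        (b • vecMulVec p q + (a * b * (q ⬝ᵥ p)) • vecMulVec p q) =
        1 + (a + b + a * b * (q ⬝ᵥ p)) • vecMulVec p q := by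
      rw [add_smul, add_smul]; abel
    rw [this, hab, zero_smul, add_zero]
  let A : GL (Fin d) K := ⟨1 + α • vecMulVec z (w - w'), 1 + (-β) • vecMulVec z (w - w'),
    key _ _ _ _ (by rw [sub_dotProduct, hα, hβ]; field_simp; ring),
    key _ _ _ _ (by rw [sub_dotProduct, hα, hβ]; field_simp; ring)⟩
  have hA : w' ᵥ* (A : Matrix (Fin d) (Fin d) K) = w := by
    show w' ᵥ* (1 + α • vecMulVec z (w - w')) = w
    rw [Matrix.vecMul_add, Matrix.vecMul_one, Matrix.vecMul_smul, Matrix.vecMul_vecMulVec, smul_smul]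
    have : α * (w' ⬝ᵥ z) = 1 := inv_mul_cancel₀ hz'
    rw [this, one_smul]; abel
  set x'' := (A : Matrix (Fin d) (Fin d) K) *ᵥ x with hx''
  have hwx : w' ⬝ᵥ x'' = w ⬝ᵥ x := by
    rw [hx'', Matrix.dotProduct_mulVec, hA]
  set s : K := (w ⬝ᵥ x) / (w' ⬝ᵥ x') with hs
  have hy : w' ⬝ᵥ (s • x' - x'') = 0 := by
    rw [dotProduct_sub, dotProduct_smul, hwx, hs, smul_eq_mul, div_mul_cancel₀ _ h', sub_self]
  let B : GL (Fin d) K := ⟨1 + (w ⬝ᵥ x)⁻¹ • vecMulVec (s • x' - x'') w',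
    1 + (-(w ⬝ᵥ x)⁻¹) • vecMulVec (s • x' - x'') w',
    key _ _ _ _ (by rw [hy]; ring), key _ _ _ _ (by rw [hy]; ring)⟩
  have hB : w' ᵥ* (B : Matrix (Fin d) (Fin d) K) = w' := by
    show w' ᵥ* (1 + (w ⬝ᵥ x)⁻¹ • vecMulVec (s • x' - x'') w') = w'
    rw [Matrix.vecMul_add, Matrix.vecMul_one, Matrix.vecMul_smul, Matrix.vecMul_vecMulVec, hy]
    simp
  have hBx : (B : Matrix (Fin d) (Fin d) K) *ᵥ x'' = s • x' := by
    show (1 + (w ⬝ᵥ x)⁻¹ • vecMulVec (s • x' - x'') w') *ᵥ x'' = s • x'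
    rw [Matrix.add_mulVec, Matrix.one_mulVec, Matrix.smul_mulVec, Matrix.vecMulVec_mulVec, hwx]
    ext i
    simp only [Pi.add_apply, Pi.smul_apply, Pi.sub_apply, smul_eq_mul, MulOpposite.smul_eq_mul_unop,
      MulOpposite.unop_op]
    field_simp
    ring
  refine ⟨B * A, s, div_ne_zero h h', ?_, ?_⟩
  · rw [Units.val_mul, ← Matrix.mulVec_mulVec, ← hx'', hBx]
  · rw [Units.val_mul, ← Matrix.vecMul_vecMul, hB, hA]

end field

end Pool.Agent.R77.Orb
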