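import Pool.Agent.R77.Orb.Basic

set_option autoImplicit false

/-!
# Counting matrices modulo a prime whose orbit sequence has no zero (helper77)
-/

namespace Pool.Agent.R77.Orb
open Matrix Pool.Agent.H884R2.Sko Pool.Agent.H684R3.Smo

/-- the orbit sequence modulo `p` has period `(p - 1) / 2` and no zero term -/
def GoodM {p d : ℕ} (M : Matrix (Fin d) (Fin d) (ZMod p)) (x w : Fin d → ZMod p) : Prop :=
  (∀ n, orb M x w (n + (p - 1) / 2) = orb M x w n) ∧ ∀ n, orb M x w n ≠ 0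

theorem orb_smul {K : Type*} [Field K] {d : ℕ} (M : Matrix (Fin d) (Fin d) K) (x w : Fin d → K)
    (s : K) (n : ℕ) : orb M (s • x) w n = s * orb M x w n := by
  unfold orb
  rw [Matrix.mulVec_smul, dotProduct_smul, smul_eq_mul]

theorem orb_zero {R : Type*} [CommRing R] {d : ℕ} (M : Matrix (Fin d) (Fin d) R) (x w : Fin d → R) :
    orb M x w 0 = w ⬝ᵥ x := by
  unfold orb
  rw [pow_zero, Matrix.one_mulVec]

theorem card_gl (p d : ℕ) [Fact p.Prime] :
    (p : ℝ) ^ (d * d) ≤ 2 ^ d * (Nat.card (GL (Fin d) (ZMod p)) : ℝ) := by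
  rw [Matrix.card_GL_field, ZMod.card]
  have hp : 2 ≤ p := (Fact.out : p.Prime).two_le
  have h : (p ^ d) ^ d ≤ 2 ^ d * ∏ i : Fin d, (p ^ d - p ^ (i : ℕ)) := by
    calc (p ^ d) ^ d = ∏ _i : Fin d, p ^ d := by simp
      _ ≤ ∏ i : Fin d, (2 * (p ^ d - p ^ (i : ℕ))) := by
          apply Finset.prod_le_prod'
          intro i _
          have h1 : 2 * p ^ (i : ℕ) ≤ p ^ d := by
            calc 2 * p ^ (i : ℕ) ≤ p * p ^ (i : ℕ) := Nat.mul_le_mul_right _ hp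
              _ = p ^ ((i : ℕ) + 1) := by rw [pow_succ']
              _ ≤ p ^ d := Nat.pow_le_pow_right (by omega) i.2
          omega
      _ = 2 ^ d * ∏ i : Fin d, (p ^ d - p ^ (i : ℕ)) := by
          rw [Finset.prod_mul_distrib]; simp
  have h2 : (((p ^ d) ^ d : ℕ) : ℝ) ≤ ((2 ^ d * ∏ i : Fin d, (p ^ d - p ^ (i : ℕ)) : ℕ) : ℝ) := by
    exact_mod_cast h
  rw [← pow_mul] at h2
  calc (p : ℝ) ^ (d * d) = ((p ^ (d * d) : ℕ) : ℝ) := by push_cast; ring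
    _ ≤ _ := h2
    _ = _ := by push_cast; ring

/-- many good triples -/
theorem count_triples (p d : ℕ) [Fact p.Prime] (hd : 1 ≤ d) :
    Nat.card {v : Fin d ⊕ Fin d → ZMod p //
      GoodP (fun i => v (Sum.inl i)) (fun i => v (Sum.inr i))} * Nat.card (GL (Fin d) (ZMod p)) ≤
    Nat.card {y : Matrix (Fin d) (Fin d) (ZMod p) × (Fin d → ZMod p) × (Fin d → ZMod p) //
      GoodM y.1 y.2.1 y.2.2} := by
  haveI : NeZero p := ⟨(Fact.out : p.Prime).ne_zero⟩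
  rw [← Nat.card_prod]
  refine Nat.card_le_card_of_injective (fun z => ⟨tri hd
    (fun i => z.1.1 (Sum.inl i), fun i => z.1.1 (Sum.inr i), z.2), ?_⟩) ?_
  · refine ⟨fun n => ?_, fun n => ?_⟩
    · rw [tri_orb, tri_orb]; exact z.1.2.1 n
    · rw [tri_orb]; exact z.1.2.2 n
  · intro z z' h
    have h1 := tri_inj hd (congrArg Subtype.val h)
    simp only [Prod.mk.injEq] at h1
    obtain ⟨h2, h3, h4⟩ := h1
    apply Prod.ext
    · apply Subtype.ext
      funext i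
      rcases i with i | i
      · exact congrFun h2 i
      · exact congrFun h3 i
    · exact h4

/-- conjugation maps good matrices for `(x', w')` to good matrices for `(x, w)` -/
theorem count_fixed (p d : ℕ) [Fact p.Prime] (x w : Fin d → ZMod p) (hxw : w ⬝ᵥ x ≠ 0) :
    Nat.card {y : Matrix (Fin d) (Fin d) (ZMod p) × (Fin d → ZMod p) × (Fin d → ZMod p) //
      GoodM y.1 y.2.1 y.2.2} ≤
    p ^ (d + d) * Nat.card {M : Matrix (Fin d) (Fin d) (ZMod p) // GoodM M x w} := by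
  classical
  haveI : NeZero p := ⟨(Fact.out : p.Prime).ne_zero⟩
  have hcard : Nat.card ((Fin d → ZMod p) × (Fin d → ZMod p)) = p ^ (d + d) := by
    rw [Nat.card_prod, Nat.card_eq_fintype_card, Fintype.card_pi]
    simp [ZMod.card, pow_add]
  rw [← hcard, ← Nat.card_prod]
  have hex : ∀ x' w' : Fin d → ZMod p, ∃ g : GL (Fin d) (ZMod p), w' ⬝ᵥ x' ≠ 0 →
      ∃ s : ZMod p, s ≠ 0 ∧ (g : Matrix (Fin d) (Fin d) (ZMod p)) *ᵥ x' = s • x ∧
        w ᵥ* (g : Matrix (Fin d) (Fin d) (ZMod p)) = w' := by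
    intro x' w'
    by_cases h : w' ⬝ᵥ x' ≠ 0
    · obtain ⟨g, s, h1, h2, h3⟩ := exists_gl x' w' x w h hxw
      exact ⟨g, fun _ => ⟨s, h1, h2, h3⟩⟩
    · exact ⟨1, fun h' => absurd h' h⟩
  choose g hg using hex
  refine Nat.card_le_card_of_injective (fun y => ((y.1.2.1, y.1.2.2),
    ⟨((g y.1.2.1 y.1.2.2 : GL (Fin d) (ZMod p)) : Matrix (Fin d) (Fin d) (ZMod p)) * y.1.1 *
      (((g y.1.2.1 y.1.2.2)⁻¹ : GL (Fin d) (ZMod p)) : Matrix (Fin d) (Fin d) (ZMod p)), ?_⟩)) ?_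
  · obtain ⟨⟨M, x', w'⟩, hgood⟩ := y
    simp only at hgood ⊢
    have h0 : w' ⬝ᵥ x' ≠ 0 := by
      have := hgood.2 0
      rwa [orb_zero] at this
    obtain ⟨s, hs, h1, h2⟩ := hg x' w' h0
    have hw : w' ᵥ* (((g x' w')⁻¹ : GL (Fin d) (ZMod p)) : Matrix (Fin d) (Fin d) (ZMod p)) = w := by
      have hmul : ((g x' w' : GL (Fin d) (ZMod p)) : Matrix (Fin d) (Fin d) (ZMod p)) *
          (((g x' w')⁻¹ : GL (Fin d) (ZMod p)) : Matrix (Fin d) (Fin d) (ZMod p)) = 1 :=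
        (g x' w').mul_inv
      conv_lhs => rw [← h2]
      rw [Matrix.vecMul_vecMul]
      simp only [h2, hmul, Matrix.vecMul_one]
    have key : ∀ n, s * orb (((g x' w' : GL (Fin d) (ZMod p)) : Matrix (Fin d) (Fin d) (ZMod p)) *
        M * (((g x' w')⁻¹ : GL (Fin d) (ZMod p)) : Matrix (Fin d) (Fin d) (ZMod p))) x w n =
        orb M x' w' n := by
      intro n
      rw [← orb_conj (g x' w') M x' w' n, h1, hw, orb_smul]
    constructor
    · intro n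
      apply mul_left_cancel₀ hs
      rw [key, key]
      exact hgood.1 n
    · intro n h
      apply hgood.2 n
      rw [← key, h, mul_zero]
  · intro y y' h
    simp only [Prod.mk.injEq] at h
    obtain ⟨⟨h1, h2⟩, h3⟩ := h
    have h4 := congrArg Subtype.val h3
    simp only at h4
    rw [h1, h2] at h4
    apply Subtype.ext
    refine Prod.ext ?_ (Prod.ext h1 h2)
    have hl : (((g y'.1.2.1 y'.1.2.2)⁻¹ : GL (Fin d) (ZMod p)) : Matrix (Fin d) (Fin d) (ZMod p)) *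
        ((g y'.1.2.1 y'.1.2.2 : GL (Fin d) (ZMod p)) : Matrix (Fin d) (Fin d) (ZMod p)) = 1 :=
      (g y'.1.2.1 y'.1.2.2).inv_mul
    have h5 := congrArg (fun N => (((g y'.1.2.1 y'.1.2.2)⁻¹ : GL (Fin d) (ZMod p)) :
      Matrix (Fin d) (Fin d) (ZMod p)) * N *
      ((g y'.1.2.1 y'.1.2.2 : GL (Fin d) (ZMod p)) : Matrix (Fin d) (Fin d) (ZMod p))) h4
    simp only [Matrix.mul_assoc, hl, Matrix.mul_one] at h5
    rw [← Matrix.mul_assoc, ← Matrix.mul_assoc, hl, Matrix.one_mul, Matrix.one_mul] at h5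
    exact h5

theorem dens (d : ℕ) (hd : 1 ≤ d) : ∃ κ : ℝ, 0 < κ ∧ ∀ p : ℕ, p.Prime → 4 * d ≤ p →
    κ * (p : ℝ) ^ (d * d + (d + d)) ≤
      (Nat.card {y : Matrix (Fin d) (Fin d) (ZMod p) × (Fin d → ZMod p) × (Fin d → ZMod p) //
        GoodM y.1 y.2.1 y.2.2} : ℝ) ∧
    ∀ x w : Fin d → ZMod p, w ⬝ᵥ x ≠ 0 → κ * (p : ℝ) ^ (d * d) ≤
      (Nat.card {M : Matrix (Fin d) (Fin d) (ZMod p) // GoodM M x w} : ℝ) := by
  obtain ⟨κ, hκ, h6⟩ := t6 d hd
  refine ⟨κ / 2 ^ d, by positivity, fun p hp hpd => ?_⟩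
  haveI : Fact p.Prime := ⟨hp⟩
  have hp0 : (0 : ℝ) < p := by exact_mod_cast hp.pos
  have h1 := h6 p hp hpd
  have hc : Fintype.card (Fin d ⊕ Fin d) = d + d := by simp
  rw [hc] at h1
  have h2 := card_gl p d
  have h3 := count_triples p d hd
  have h3' : ((Nat.card {v : Fin d ⊕ Fin d → ZMod p //
      GoodP (fun i => v (Sum.inl i)) (fun i => v (Sum.inr i))} : ℕ) : ℝ) *
      (Nat.card (GL (Fin d) (ZMod p)) : ℝ) ≤
    (Nat.card {y : Matrix (Fin d) (Fin d) (ZMod p) × (Fin d → ZMod p) × (Fin d → ZMod p) //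
      GoodM y.1 y.2.1 y.2.2} : ℝ) := by exact_mod_cast h3
  have h4 : κ / 2 ^ d * (p : ℝ) ^ (d * d + (d + d)) ≤
      (Nat.card {y : Matrix (Fin d) (Fin d) (ZMod p) × (Fin d → ZMod p) × (Fin d → ZMod p) //
        GoodM y.1 y.2.1 y.2.2} : ℝ) := by
    refine le_trans ?_ h3'
    calc κ / 2 ^ d * (p : ℝ) ^ (d * d + (d + d))
        = (κ * (p : ℝ) ^ (d + d)) * ((p : ℝ) ^ (d * d) / 2 ^ d) := by rw [pow_add]; ring
      _ ≤ _ := by
          apply mul_le_mul h1 _ (by positivity) (by positivity)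
          rw [div_le_iff₀ (by positivity)]
          linarith
  refine ⟨h4, fun x w hxw => ?_⟩
  have h5 := count_fixed p d x w hxw
  have h5' : ((Nat.card {y : Matrix (Fin d) (Fin d) (ZMod p) × (Fin d → ZMod p) × (Fin d → ZMod p) //
      GoodM y.1 y.2.1 y.2.2} : ℕ) : ℝ) ≤ (p : ℝ) ^ (d + d) *
      (Nat.card {M : Matrix (Fin d) (Fin d) (ZMod p) // GoodM M x w} : ℝ) := by exact_mod_cast h5
  have h7 : (p : ℝ) ^ (d + d) * (κ / 2 ^ d * (p : ℝ) ^ (d * d)) ≤ (p : ℝ) ^ (d + d) *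
      (Nat.card {M : Matrix (Fin d) (Fin d) (ZMod p) // GoodM M x w} : ℝ) := by
    refine le_trans (le_of_eq ?_) (h4.trans h5')
    rw [pow_add (p : ℝ) (d * d)]; ring
  exact le_of_mul_le_mul_left h7 (by positivity)

end Pool.Agent.R77.Orb
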