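import Pool.Agent.R77.Orb.Count

set_option autoImplicit false

/-!
# Orbits of most integer matrices avoid hyperplanes (helper77)
-/

namespace Pool.Agent.R77.Orb
open Matrix Pool.Agent.H884R2.Sko Pool.Agent.H684R3.Smo

/-- a prime `p ≤ (log H) ^ A` modulo which the sequence has period `(p - 1) / 2` and no zero term -/
def Crt (A : ℝ) (H : ℕ) (u : ℕ → ℤ) : Prop :=
  ∃ p : ℕ, p.Prime ∧ (p : ℝ) ≤ Real.log H ^ A ∧
    (∀ n, (p : ℤ) ∣ u (n + (p - 1) / 2) - u n) ∧ ∀ n, ¬ (p : ℤ) ∣ u n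

theorem orb_cast {d : ℕ} (p : ℕ) (M : Matrix (Fin d) (Fin d) ℤ) (x w : Fin d → ℤ) (n : ℕ) :
    ((orb M x w n : ℤ) : ZMod p) =
      orb (M.map (Int.castRingHom (ZMod p))) (fun i => ((x i : ℤ) : ZMod p))
        (fun i => ((w i : ℤ) : ZMod p)) n := by
  unfold orb
  have h1 := RingHom.map_dotProduct (Int.castRingHom (ZMod p)) w (M ^ n *ᵥ x)
  have h2 : (Int.castRingHom (ZMod p)) ∘ (M ^ n *ᵥ x) =
      (M.map (Int.castRingHom (ZMod p))) ^ n *ᵥ (fun i => ((x i : ℤ) : ZMod p)) := by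
    funext i
    have h3 := RingHom.map_mulVec (Int.castRingHom (ZMod p)) (M ^ n) x i
    have h4 : (M ^ n).map (Int.castRingHom (ZMod p)) = (M.map (Int.castRingHom (ZMod p))) ^ n := by
      have := map_pow ((Int.castRingHom (ZMod p)).mapMatrix (m := Fin d)) M n
      simpa using this
    rw [h4] at h3
    rw [Function.comp_apply, h3]
    rfl
  rw [h2] at h1
  exact h1

theorem good_crt {d : ℕ} (p : ℕ) (M : Matrix (Fin d) (Fin d) ℤ) (x w : Fin d → ℤ)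
    (h : GoodM (p := p) (M.map (Int.castRingHom (ZMod p))) (fun i => ((x i : ℤ) : ZMod p))
      (fun i => ((w i : ℤ) : ZMod p))) :
    (∀ n, (p : ℤ) ∣ orb M x w (n + (p - 1) / 2) - orb M x w n) ∧
      ∀ n, ¬ (p : ℤ) ∣ orb M x w n := by
  constructor
  · intro n
    rw [← ZMod.intCast_zmod_eq_zero_iff_dvd, Int.cast_sub, orb_cast, orb_cast, h.1 n, sub_self]
  · intro n hn
    rw [← ZMod.intCast_zmod_eq_zero_iff_dvd, orb_cast] at hn
    exact h.2 n hn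

open Classical in
/-- the sieve, in the form which is used -/
theorem sieve (ι : Type) [Fintype ι] [DecidableEq ι] (P : ℕ → Prop)
    (G : ∀ p : ℕ, Set (ι → ZMod p)) (κ θ A : ℝ) (hκ : 0 < κ) (hθ : 0 < θ) (hA : 0 < A)
    (hAθ : 1 < A * θ)
    (h1 : ∀ p, P p → p.Prime ∧ κ * (p : ℝ) ^ (Fintype.card ι) ≤ (Nat.card (G p) : ℝ))
    (h2 : ∃ y₀ : ℕ, ∀ y : ℕ, y₀ ≤ y → (y : ℝ) ^ θ ≤ (Nat.card {p : ℕ // P p ∧ p ≤ y} : ℝ)) :
    ∃ δ : ℝ, 0 < δ ∧ ∃ H₀ : ℕ, ∀ H : ℕ, H₀ ≤ H → ∀ b : ι → ℤ, ∃ E : Finset (ι → ℤ),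
      (E.card : ℝ) ≤ (2 * (H : ℝ) + 1) ^ (Fintype.card ι) * (H : ℝ) ^ (-δ) ∧
      ∀ v : ι → ℤ, (∀ i, |v i - b i| ≤ H) → v ∉ E → ∃ p, P p ∧ (p : ℝ) ≤ Real.log H ^ A ∧
        (fun i => ((v i : ℤ) : ZMod p)) ∈ G p := by
  obtain ⟨δ, hδ, H₀, h⟩ := h5 ι P G κ θ A hκ hθ hA hAθ h1 h2
  refine ⟨δ, hδ, H₀, fun H hH b => ⟨(bx b H).filter (fun v => ∀ p, P p →
    (p : ℝ) ≤ Real.log H ^ A → (fun i => ((v i : ℤ) : ZMod p)) ∉ G p), ?_, ?_⟩⟩
  · refine le_trans ?_ (h H hH b)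
    norm_cast
    refine card_le_sub _ _ (finite_sub _ _ _) (fun v : ι → ℤ => v) (fun _ _ h => h) ?_
    intro a ha
    rw [Finset.mem_filter] at ha
    exact ha
  · intro v hv hvE
    by_contra hcon
    apply hvE
    rw [Finset.mem_filter]
    constructor
    · unfold bx
      rw [Fintype.mem_piFinset]
      intro i
      have := abs_le.1 (hv i)
      rw [Finset.mem_Icc]
      constructor <;> linarith [this.1, this.2]
    · intro p hp hpA hG
      exact hcon ⟨p, hp, hpA, hG⟩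

/-- exponents for the sieve over almost all primes -/
theorem exps (A : ℝ) (hA : 1 < A) : ∃ θ : ℝ, 0 < θ ∧ θ < 1 ∧ 1 < A * θ := by
  have hA0 : 0 < A := by linarith
  have hinv : 1 / A < 1 := by rw [div_lt_one hA0]; exact hA
  have hinv0 : 0 < 1 / A := by positivity
  refine ⟨(1 + 1 / A) / 2, by positivity, by linarith, ?_⟩
  have : A * ((1 + 1 / A) / 2) = (A + 1) / 2 := by field_simp
  rw [this]; linarith

theorem card_box {d : ℕ} : Fintype.card ((Fin d × Fin d) ⊕ (Fin d ⊕ Fin d)) = d * d + (d + d) := by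
  simp

open Classical in
/-- random triples -/
theorem part_one (d : ℕ) (hd : 1 ≤ d) (A : ℝ) (hA : 1 < A) :
    ∃ δ : ℝ, 0 < δ ∧ ∃ H₀ : ℕ, ∀ H : ℕ, H₀ ≤ H →
      ∀ (B : Matrix (Fin d) (Fin d) ℤ) (b b' : Fin d → ℤ),
      ∃ E : Finset (Matrix (Fin d) (Fin d) ℤ × (Fin d → ℤ) × (Fin d → ℤ)),
        (E.card : ℝ) ≤ (2 * (H : ℝ) + 1) ^ (d * d + 2 * d) * (H : ℝ) ^ (-δ) ∧
        ∀ M x w, (∀ i j, |M i j - B i j| ≤ H) → (∀ i, |x i - b i| ≤ H) →
          (∀ i, |w i - b' i| ≤ H) → (M, x, w) ∉ E → Crt A H (orb M x w) := by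
  obtain ⟨κ, hκ, hk⟩ := dens d hd
  obtain ⟨θ, hθ0, hθ1, hAθ⟩ := exps A hA
  have hcard := card_box (d := d)
  have hh : ∀ p, (p.Prime ∧ 4 * d ≤ p) → p.Prime ∧
      κ * (p : ℝ) ^ (Fintype.card ((Fin d × Fin d) ⊕ (Fin d ⊕ Fin d))) ≤
      (Nat.card ({v | GoodM (Matrix.of fun i j => v (Sum.inl (i, j)))
        (fun i => v (Sum.inr (Sum.inl i))) (fun i => v (Sum.inr (Sum.inr i)))} :
        Set ((Fin d × Fin d) ⊕ (Fin d ⊕ Fin d) → ZMod p)) : ℝ) := by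
    rintro p ⟨hp, hpd⟩
    refine ⟨hp, ?_⟩
    haveI : Fact p.Prime := ⟨hp⟩
    haveI : NeZero p := ⟨hp.ne_zero⟩
    rw [hcard]
    refine (hk p hp hpd).1.trans ?_
    norm_cast
    refine Nat.card_le_card_of_injective (fun y => ⟨Sum.elim (fun ij => y.1.1 ij.1 ij.2)
      (Sum.elim y.1.2.1 y.1.2.2), ?_⟩) ?_
    · exact y.2
    · intro y y' h
      have h1 := congrArg Subtype.val h
      simp only at h1
      apply Subtype.ext
      refine Prod.ext ?_ (Prod.ext ?_ ?_)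
      · ext i j
        exact congrFun h1 (Sum.inl (i, j))
      · funext i
        exact congrFun h1 (Sum.inr (Sum.inl i))
      · funext i
        exact congrFun h1 (Sum.inr (Sum.inr i))
  obtain ⟨δ, hδ, H₀, h⟩ := sieve ((Fin d × Fin d) ⊕ (Fin d ⊕ Fin d))
    (fun p => p.Prime ∧ 4 * d ≤ p)
    (fun p => {v | GoodM (Matrix.of fun i j => v (Sum.inl (i, j)))
      (fun i => v (Sum.inr (Sum.inl i))) (fun i => v (Sum.inr (Sum.inr i)))})
    κ θ A hκ hθ0 (by linarith) hAθ hh (t9 θ (4 * d) hθ1)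
  · refine ⟨δ, hδ, H₀, fun H hH B b b' => ?_⟩
    obtain ⟨E, hE1, hE2⟩ := h H hH (Sum.elim (fun ij => B ij.1 ij.2) (Sum.elim b b'))
    rw [hcard] at hE1
    let φ : ((Fin d × Fin d) ⊕ (Fin d ⊕ Fin d) → ℤ) →
      Matrix (Fin d) (Fin d) ℤ × (Fin d → ℤ) × (Fin d → ℤ) := fun v =>
      (Matrix.of fun i j => v (Sum.inl (i, j)), fun i => v (Sum.inr (Sum.inl i)),
        fun i => v (Sum.inr (Sum.inr i)))
    refine ⟨E.image φ, ?_, fun M x w hM hx hw hE => ?_⟩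
    · refine le_trans (by exact_mod_cast Finset.card_image_le) (hE1.trans (le_of_eq ?_))
      rw [two_mul d]
    · have hnot : (Sum.elim (fun ij => M ij.1 ij.2) (Sum.elim x w) :
          (Fin d × Fin d) ⊕ (Fin d ⊕ Fin d) → ℤ) ∉ E := by
        intro hmem
        apply hE
        rw [Finset.mem_image]
        exact ⟨_, hmem, rfl⟩
      obtain ⟨p, hp, hpA, hG⟩ := hE2 _ (by
        rintro (⟨i, j⟩ | i | i)
        · exact hM i j
        · exact hx i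
        · exact hw i) hnot
      exact ⟨p, hp.1, hpA, good_crt p M x w hG⟩
open Classical in
/-- random matrices, fixed vectors -/
theorem part_two (d : ℕ) (hd : 1 ≤ d) (A : ℝ) (hA : 1 < A) (x w : Fin d → ℤ)
    (hxw : w ⬝ᵥ x ≠ 0) :
    ∃ δ : ℝ, 0 < δ ∧ ∃ H₀ : ℕ, ∀ H : ℕ, H₀ ≤ H → ∀ B : Matrix (Fin d) (Fin d) ℤ,
      ∃ E : Finset (Matrix (Fin d) (Fin d) ℤ),
        (E.card : ℝ) ≤ (2 * (H : ℝ) + 1) ^ (d * d) * (H : ℝ) ^ (-δ) ∧
        ∀ M, (∀ i j, |M i j - B i j| ≤ H) → M ∉ E → Crt A H (orb M x w) := by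
  obtain ⟨κ, hκ, hk⟩ := dens d hd
  obtain ⟨θ, hθ0, hθ1, hAθ⟩ := exps A hA
  have hcard : Fintype.card (Fin d × Fin d) = d * d := by simp
  have hh : ∀ p, (p.Prime ∧ (4 * d + (w ⬝ᵥ x).natAbs + 1) ≤ p) → p.Prime ∧
      κ * (p : ℝ) ^ (Fintype.card (Fin d × Fin d)) ≤
      (Nat.card ({v | GoodM (Matrix.of fun i j => v (i, j))
        (fun i => ((x i : ℤ) : ZMod p)) (fun i => ((w i : ℤ) : ZMod p))} :
        Set (Fin d × Fin d → ZMod p)) : ℝ) := by
    rintro p ⟨hp, hpd⟩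
    refine ⟨hp, ?_⟩
    haveI : Fact p.Prime := ⟨hp⟩
    haveI : NeZero p := ⟨hp.ne_zero⟩
    have hne : (fun i => ((w i : ℤ) : ZMod p)) ⬝ᵥ (fun i => ((x i : ℤ) : ZMod p)) ≠ 0 := by
      have h1 := RingHom.map_dotProduct (Int.castRingHom (ZMod p)) w x
      have h2 : (Int.castRingHom (ZMod p)) ∘ w = (fun i => ((w i : ℤ) : ZMod p)) := rfl
      have h3 : (Int.castRingHom (ZMod p)) ∘ x = (fun i => ((x i : ℤ) : ZMod p)) := rfl
      rw [h2, h3] at h1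
      rw [← h1]
      intro h4
      have h5 : (((w ⬝ᵥ x : ℤ)) : ZMod p) = 0 := h4
      rw [ZMod.intCast_zmod_eq_zero_iff_dvd] at h5
      have h6 := Int.natAbs_dvd_natAbs.2 h5
      rw [Int.natAbs_natCast] at h6
      have h7 := Nat.le_of_dvd (Int.natAbs_pos.2 hxw) h6
      omega
    rw [hcard]
    refine ((hk p hp (by omega)).2 _ _ hne).trans ?_
    norm_cast
    refine Nat.card_le_card_of_injective (fun y => ⟨fun ij => y.1 ij.1 ij.2, ?_⟩) ?_
    · exact y.2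
    · intro y y' h
      have h1 := congrArg Subtype.val h
      simp only at h1
      apply Subtype.ext
      ext i j
      exact congrFun h1 (i, j)
  obtain ⟨δ, hδ, H₀, h⟩ := sieve (Fin d × Fin d)
    (fun p => p.Prime ∧ (4 * d + (w ⬝ᵥ x).natAbs + 1) ≤ p)
    (fun p => {v | GoodM (Matrix.of fun i j => v (i, j))
      (fun i => ((x i : ℤ) : ZMod p)) (fun i => ((w i : ℤ) : ZMod p))})
    κ θ A hκ hθ0 (by linarith) hAθ hh (t9 θ _ hθ1)
  · refine ⟨δ, hδ, H₀, fun H hH B => ?_⟩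
    obtain ⟨E, hE1, hE2⟩ := h H hH (fun ij => B ij.1 ij.2)
    rw [hcard] at hE1
    let φ : (Fin d × Fin d → ℤ) → Matrix (Fin d) (Fin d) ℤ := fun v =>
      Matrix.of fun i j => v (i, j)
    refine ⟨E.image φ, ?_, fun M hM hE => ?_⟩
    · exact le_trans (by exact_mod_cast Finset.card_image_le) hE1
    · have hnot : (fun ij : Fin d × Fin d => M ij.1 ij.2) ∉ E := by
        intro hmem
        apply hE
        rw [Finset.mem_image]
        exact ⟨_, hmem, rfl⟩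
      obtain ⟨p, hp, hpA, hG⟩ := hE2 _ (fun ij => hM ij.1 ij.2) hnot
      exact ⟨p, hp.1, hpA, good_crt p M x w hG⟩
theorem orb_single {d : ℕ} (M : Matrix (Fin d) (Fin d) ℤ) (i : Fin d) (n : ℕ) :
    orb M (Pi.single i 1) (Pi.single i 1) n = (M ^ n) i i := by
  unfold orb
  rw [Matrix.mulVec_single_one, single_dotProduct]
  simp

open Classical in
/-- no power of most matrices has a zero on its diagonal -/
theorem part_three (d : ℕ) (hd : 1 ≤ d) (A : ℝ) (hA : 1 < A) :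
    ∃ δ : ℝ, 0 < δ ∧ ∃ H₀ : ℕ, ∀ H : ℕ, H₀ ≤ H → ∀ B : Matrix (Fin d) (Fin d) ℤ,
      ∃ E : Finset (Matrix (Fin d) (Fin d) ℤ),
        (E.card : ℝ) ≤ (2 * (H : ℝ) + 1) ^ (d * d) * (H : ℝ) ^ (-δ) ∧
        ∀ M, (∀ i j, |M i j - B i j| ≤ H) → M ∉ E →
          ∀ i, Crt A H (fun n => (M ^ n) i i) := by
  have hone : ∀ i : Fin d, (Pi.single i (1 : ℤ) : Fin d → ℤ) ⬝ᵥ Pi.single i 1 ≠ 0 := by
    intro i; rw [single_dotProduct]; simp
  choose δ hδ H₀ h using fun i : Fin d => part_two d hd A hA _ _ (hone i)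
  haveI : Nonempty (Fin d) := ⟨⟨0, hd⟩⟩
  obtain ⟨i₀, hi₀⟩ := Finite.exists_min δ
  have hd0 : (0 : ℝ) < d := by exact_mod_cast hd
  -- `d ≤ H ^ (δ / 2)` for large `H`
  have hev : ∀ᶠ H : ℕ in Filter.atTop, (d : ℝ) ≤ (H : ℝ) ^ (δ i₀ / 2) := by
    have : Filter.Tendsto (fun y : ℕ => (y : ℝ) ^ (δ i₀ / 2)) Filter.atTop Filter.atTop :=
      (tendsto_rpow_atTop (half_pos (hδ i₀))).comp tendsto_natCast_atTop_atTop
    exact this.eventually_ge_atTop _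
  obtain ⟨H₁, hH₁⟩ := Filter.eventually_atTop.1 hev
  refine ⟨δ i₀ / 2, half_pos (hδ i₀), max 1 (max H₁ (Finset.univ.sup H₀)), fun H hH B => ?_⟩
  have hH1 : 1 ≤ H := (le_max_left _ _).trans hH
  have hH2 : H₁ ≤ H := (le_max_left _ _).trans ((le_max_right _ _).trans hH)
  have hH3 : ∀ i, H₀ i ≤ H := fun i => (Finset.le_sup (Finset.mem_univ i)).trans
    ((le_max_right _ _).trans ((le_max_right _ _).trans hH))
  choose E hE1 hE2 using fun i => h i H (hH3 i) B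
  refine ⟨Finset.univ.biUnion E, ?_, fun M hM hME i => ?_⟩
  · have hHr : (1 : ℝ) ≤ H := by exact_mod_cast hH1
    have hH0 : (0 : ℝ) < H := by linarith
    calc ((Finset.univ.biUnion E).card : ℝ) ≤ ∑ i : Fin d, ((E i).card : ℝ) := by
          exact_mod_cast Finset.card_biUnion_le
      _ ≤ ∑ _i : Fin d, (2 * (H : ℝ) + 1) ^ (d * d) * (H : ℝ) ^ (-(δ i₀)) := by
          apply Finset.sum_le_sum
          intro i _
          refine (hE1 i).trans ?_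
          apply mul_le_mul_of_nonneg_left _ (by positivity)
          exact Real.rpow_le_rpow_of_exponent_le hHr (by linarith [hi₀ i])
      _ = (2 * (H : ℝ) + 1) ^ (d * d) * ((d : ℝ) * (H : ℝ) ^ (-(δ i₀))) := by
          rw [Finset.sum_const, Finset.card_univ, Fintype.card_fin, nsmul_eq_mul]; ring
      _ ≤ (2 * (H : ℝ) + 1) ^ (d * d) * (H : ℝ) ^ (-(δ i₀ / 2)) := by
          apply mul_le_mul_of_nonneg_left _ (by positivity)
          calc (d : ℝ) * (H : ℝ) ^ (-(δ i₀)) ≤ (H : ℝ) ^ (δ i₀ / 2) * (H : ℝ) ^ (-(δ i₀)) :=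
                mul_le_mul_of_nonneg_right (hH₁ H hH2) (by positivity)
            _ = (H : ℝ) ^ (-(δ i₀ / 2)) := by
                rw [← Real.rpow_add hH0]; congr 1; ring
  · have hni : M ∉ E i := fun hmem => hME (Finset.mem_biUnion.2 ⟨i, Finset.mem_univ i, hmem⟩)
    have := hE2 i M hM hni
    have e : orb M (Pi.single i 1) (Pi.single i 1) = fun n => (M ^ n) i i := by
      funext n; exact orb_single M i n
    rwa [e] at this

end Pool.Agent.R77.Orb
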