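import Pool.Agent.R77.Orb.Uni

set_option autoImplicit false

/-!
# Uniformity in the vectors (helper77)
-/

namespace Pool.Agent.R77.Orb
open Matrix Filter Pool.Agent.H884R2.Sko Pool.Agent.H684R3.Smo

/-- removing the primes which divide a number of polynomial size -/
theorem count_coprime (d : ℕ) (A θ C : ℝ) (hA : 0 < A) (hθ : 0 < θ) (hθ1 : θ < 1)
    (hAθ : 1 < A * θ) :
    ∀ᶠ H : ℕ in atTop, ∀ N : ℕ, N ≠ 0 → Real.log N ≤ C * (1 + Real.log H) →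
      ((⌊Real.log H ^ A⌋₊ : ℕ) : ℝ) ^ θ ≤
        (Nat.card {p : ℕ // (p.Prime ∧ 4 * d ≤ p ∧ ¬ p ∣ N) ∧ p ≤ ⌊Real.log H ^ A⌋₊} : ℝ) := by
  obtain ⟨θ', hθ', hθ1'⟩ := exists_between hθ1
  obtain ⟨y₀, hy₀⟩ := t9 θ' (4 * d) hθ1'
  have hlogH : Tendsto (fun H : ℕ => Real.log (H : ℝ)) atTop atTop :=
    Real.tendsto_log_atTop.comp tendsto_natCast_atTop_atTop
  have hY : Tendsto (fun H : ℕ => ⌊Real.log (H : ℝ) ^ A⌋₊) atTop atTop :=
    tendsto_nat_floor_atTop.comp ((tendsto_rpow_atTop hA).comp hlogH)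
  have hYr : Tendsto (fun H : ℕ => ((⌊Real.log (H : ℝ) ^ A⌋₊ : ℕ) : ℝ)) atTop atTop :=
    tendsto_natCast_atTop_atTop.comp hY
  have e1 := hY.eventually (eventually_ge_atTop y₀)
  have e2 : ∀ᶠ H : ℕ in atTop,
      (2 : ℝ) ≤ ((⌊Real.log (H : ℝ) ^ A⌋₊ : ℕ) : ℝ) ^ (θ' - θ) :=
    ((tendsto_rpow_atTop (by linarith : 0 < θ' - θ)).comp hYr).eventually_ge_atTop _
  have e3 : ∀ᶠ H : ℕ in atTop, (4 * |C| / Real.log 2 * 2 ^ θ : ℝ) ≤
      Real.log H ^ (A * θ - 1) :=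
    ((tendsto_rpow_atTop (by linarith : 0 < A * θ - 1)).comp hlogH).eventually_ge_atTop _
  have e4 := hlogH.eventually (eventually_ge_atTop (1 : ℝ))
  have e5 : ∀ᶠ H : ℕ in atTop, (2 : ℝ) ≤ Real.log H ^ A :=
    ((tendsto_rpow_atTop hA).comp hlogH).eventually_ge_atTop _
  filter_upwards [e1, e2, e3, e4, e5] with H h1 h2 h3 h4 h5 N hN hNC
  have hyt : Real.log H ^ A < ((⌊Real.log H ^ A⌋₊ : ℕ) : ℝ) + 1 := Nat.lt_floor_add_one _
  set y := ⌊Real.log H ^ A⌋₊ with hy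
  have hy1 : Real.log H ^ A / 2 ≤ y := by linarith
  have hypos : (0 : ℝ) < y := by linarith
  have hl2 : 0 < Real.log 2 := Real.log_pos (by norm_num)
  have k1 := hy₀ y h1
  have k2 := card_primeDvd N hN y
  -- the count splits
  have k3 : Nat.card {p : ℕ // (p.Prime ∧ 4 * d ≤ p) ∧ p ≤ y} ≤
      Nat.card {p : ℕ // (p.Prime ∧ 4 * d ≤ p ∧ ¬ p ∣ N) ∧ p ≤ y} +
        Nat.card {p : ℕ // (p.Prime ∧ p ∣ N) ∧ p ≤ y} := by
    have hf1 : Finite {p : ℕ // (p.Prime ∧ 4 * d ≤ p ∧ ¬ p ∣ N) ∧ p ≤ y} :=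
      Set.Finite.subset (Set.finite_Iic y) (fun p hp => hp.2)
    have hf2 : Finite {p : ℕ // (p.Prime ∧ p ∣ N) ∧ p ≤ y} :=
      Set.Finite.subset (Set.finite_Iic y) (fun p hp => hp.2)
    rw [← Nat.card_sum]
    classical
    apply Nat.card_le_card_of_injective (fun p : {p : ℕ // (p.Prime ∧ 4 * d ≤ p) ∧ p ≤ y} =>
      if h : p.1 ∣ N then (Sum.inr ⟨p.1, ⟨p.2.1.1, h⟩, p.2.2⟩ :
        {p : ℕ // (p.Prime ∧ 4 * d ≤ p ∧ ¬ p ∣ N) ∧ p ≤ y} ⊕ {p : ℕ // (p.Prime ∧ p ∣ N) ∧ p ≤ y})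
      else Sum.inl ⟨p.1, ⟨p.2.1.1, p.2.1.2, h⟩, p.2.2⟩)
    intro p q h
    apply Subtype.ext
    dsimp only at h
    split_ifs at h with a b b
    · exact congrArg (fun z : {p : ℕ // (p.Prime ∧ p ∣ N) ∧ p ≤ y} => z.1) (Sum.inr.inj h)
    · exact congrArg (fun z : {p : ℕ // (p.Prime ∧ 4 * d ≤ p ∧ ¬ p ∣ N) ∧ p ≤ y} => z.1)
        (Sum.inl.inj h)
  have k4 : (Nat.card {p : ℕ // (p.Prime ∧ 4 * d ≤ p) ∧ p ≤ y} : ℝ) ≤
      (Nat.card {p : ℕ // (p.Prime ∧ 4 * d ≤ p ∧ ¬ p ∣ N) ∧ p ≤ y} : ℝ) +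
        (Nat.card {p : ℕ // (p.Prime ∧ p ∣ N) ∧ p ≤ y} : ℝ) := by exact_mod_cast k3
  -- `y ^ θ' ≥ 2 y ^ θ`
  have k5 : 2 * (y : ℝ) ^ θ ≤ (y : ℝ) ^ θ' := by
    have : (y : ℝ) ^ θ' = (y : ℝ) ^ (θ' - θ) * (y : ℝ) ^ θ := by
      rw [← Real.rpow_add hypos]; congr 1; ring
    rw [this]
    exact mul_le_mul_of_nonneg_right h2 (by positivity)
  -- `y ^ θ` is larger than the number of prime divisors
  have k6 : (Nat.card {p : ℕ // (p.Prime ∧ p ∣ N) ∧ p ≤ y} : ℝ) ≤ (y : ℝ) ^ θ := by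
    have h2θ : (0 : ℝ) < 2 ^ θ := by positivity
    have a1 : (Real.log H ^ A / 2) ^ θ ≤ (y : ℝ) ^ θ :=
      Real.rpow_le_rpow (by positivity) hy1 hθ.le
    have a2 : (Real.log H ^ A / 2) ^ θ = Real.log H * Real.log H ^ (A * θ - 1) / 2 ^ θ := by
      have hpos : (0 : ℝ) < Real.log H := by linarith
      rw [Real.div_rpow (by positivity) (by norm_num), ← Real.rpow_mul hpos.le]
      congr 1
      rw [Real.rpow_sub hpos, Real.rpow_one]
      field_simp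
    have a3 : (4 * |C| / Real.log 2) * Real.log H ≤ (y : ℝ) ^ θ := by
      refine le_trans ?_ a1
      rw [a2, le_div_iff₀ h2θ]
      have hpos : (0 : ℝ) < Real.log H := by linarith
      nlinarith [mul_le_mul_of_nonneg_left h3 hpos.le]
    have a4 : (Nat.card {p : ℕ // (p.Prime ∧ p ∣ N) ∧ p ≤ y} : ℝ) ≤
        (C * (1 + Real.log H)) / Real.log 2 := by
      rw [le_div_iff₀ hl2]
      exact k2.trans hNC
    refine a4.trans (le_trans ?_ a3)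
    rw [div_mul_eq_mul_div, div_le_div_iff_of_pos_right hl2]
    have hC : C ≤ |C| := le_abs_self C
    have hC0 : 0 ≤ |C| := abs_nonneg C
    nlinarith [mul_nonneg hC0 (by linarith : (0 : ℝ) ≤ Real.log H),
      mul_le_mul_of_nonneg_right hC (by linarith : (0 : ℝ) ≤ 1 + Real.log H)]
  linarith

/-- the number `w ⬝ x` is of polynomial size -/
theorem log_dot (d : ℕ) (hd : 1 ≤ d) (c : ℝ) (H : ℕ) (hH : 1 ≤ H) (x w : Fin d → ℤ)
    (hx : ∀ i, |((x i : ℤ) : ℝ)| ≤ (H : ℝ) ^ c) (hw : ∀ i, |((w i : ℤ) : ℝ)| ≤ (H : ℝ) ^ c)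
    (hxw : w ⬝ᵥ x ≠ 0) :
    Real.log ((w ⬝ᵥ x).natAbs : ℝ) ≤ (Real.log d + 2 * |c|) * (1 + Real.log H) := by
  have hHr : (1 : ℝ) ≤ H := by exact_mod_cast hH
  have hH0 : (0 : ℝ) < H := by linarith
  have hd0 : (0 : ℝ) < d := by exact_mod_cast hd
  have hlH : 0 ≤ Real.log H := Real.log_nonneg hHr
  have hld : 0 ≤ Real.log d := Real.log_nonneg (by exact_mod_cast hd)
  have h1 : ((w ⬝ᵥ x).natAbs : ℝ) ≤ d * ((H : ℝ) ^ c * (H : ℝ) ^ c) := by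
    have e : ((w ⬝ᵥ x).natAbs : ℝ) = |((w ⬝ᵥ x : ℤ) : ℝ)| := by
      rw [← Int.cast_abs, Int.abs_eq_natAbs]; simp
    rw [e]
    unfold dotProduct
    push_cast
    calc |∑ i, (w i : ℝ) * (x i : ℝ)| ≤ ∑ i, |(w i : ℝ) * (x i : ℝ)| := Finset.abs_sum_le_sum_abs _ _
      _ ≤ ∑ _i : Fin d, (H : ℝ) ^ c * (H : ℝ) ^ c := by
          apply Finset.sum_le_sum
          intro i _
          rw [abs_mul]
          exact mul_le_mul (hw i) (hx i) (abs_nonneg _) (by positivity)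
      _ = d * ((H : ℝ) ^ c * (H : ℝ) ^ c) := by
          rw [Finset.sum_const, Finset.card_univ, Fintype.card_fin, nsmul_eq_mul]
  have hpos : (0 : ℝ) < ((w ⬝ᵥ x).natAbs : ℝ) := by
    exact_mod_cast Int.natAbs_pos.2 hxw
  have h2 := Real.log_le_log hpos h1
  rw [Real.log_mul hd0.ne' (by positivity), Real.log_mul (by positivity) (by positivity),
    Real.log_rpow hH0] at h2
  have hc : c ≤ |c| := le_abs_self c
  have hc0 : 0 ≤ |c| := abs_nonneg c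
  nlinarith [mul_le_mul_of_nonneg_right hc hlH, mul_nonneg hld hlH, mul_nonneg hc0 hlH]

/-- random matrices, vectors of polynomial size, uniformly -/
theorem part_two_uniform (d : ℕ) (hd : 1 ≤ d) (A : ℝ) (hA : 1 < A) :
    ∃ δ : ℝ, 0 < δ ∧ ∀ c : ℝ, ∃ H₀ : ℕ, ∀ H : ℕ, H₀ ≤ H → ∀ x w : Fin d → ℤ,
      (∀ i, |((x i : ℤ) : ℝ)| ≤ (H : ℝ) ^ c) → (∀ i, |((w i : ℤ) : ℝ)| ≤ (H : ℝ) ^ c) →
      w ⬝ᵥ x ≠ 0 → ∀ B : Matrix (Fin d) (Fin d) ℤ,
      ∃ E : Finset (Matrix (Fin d) (Fin d) ℤ),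
        (E.card : ℝ) ≤ (2 * (H : ℝ) + 1) ^ (d * d) * (H : ℝ) ^ (-δ) ∧
        ∀ M, (∀ i j, |M i j - B i j| ≤ H) → M ∉ E → Crt A H (orb M x w) := by
  classical
  obtain ⟨κ, hκ, hk⟩ := dens d hd
  obtain ⟨θ, hθ0, hθ1, hAθ⟩ := exps A hA
  have hA0 : 0 < A := by linarith
  have hcard : Fintype.card (Fin d × Fin d) = d * d := by simp
  obtain ⟨δ, hδ, H₀, h⟩ := t5v (Fin d × Fin d) κ θ A hκ hθ0 hA0 hAθ
  refine ⟨δ, hδ, fun c => ?_⟩
  obtain ⟨H₁, hH₁⟩ := eventually_atTop.1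
    (count_coprime d A θ (Real.log d + 2 * |c|) hA0 hθ0 hθ1 hAθ)
  refine ⟨max 1 (max H₀ H₁), fun H hH x w hx hw hxw B => ?_⟩
  have hH1 : 1 ≤ H := (le_max_left _ _).trans hH
  have hH2 : H₀ ≤ H := (le_max_left _ _).trans ((le_max_right _ _).trans hH)
  have hH3 : H₁ ≤ H := (le_max_right _ _).trans ((le_max_right _ _).trans hH)
  have hne0 : (w ⬝ᵥ x).natAbs ≠ 0 := Int.natAbs_ne_zero.2 hxw
  have hh : ∀ p, (p.Prime ∧ 4 * d ≤ p ∧ ¬ p ∣ (w ⬝ᵥ x).natAbs) → p.Prime ∧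
      κ * (p : ℝ) ^ (Fintype.card (Fin d × Fin d)) ≤
      (Nat.card ({v | GoodM (Matrix.of fun i j => v (i, j))
        (fun i => ((x i : ℤ) : ZMod p)) (fun i => ((w i : ℤ) : ZMod p))} :
        Set (Fin d × Fin d → ZMod p)) : ℝ) := by
    rintro p ⟨hp, hpd, hdvd⟩
    refine ⟨hp, ?_⟩
    haveI : Fact p.Prime := ⟨hp⟩
    haveI : NeZero p := ⟨hp.ne_zero⟩
    have hne : (fun i => ((w i : ℤ) : ZMod p)) ⬝ᵥ (fun i => ((x i : ℤ) : ZMod p)) ≠ 0 := by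
      have h1 := RingHom.map_dotProduct (Int.castRingHom (ZMod p)) w x
      have h2 : (Int.castRingHom (ZMod p)) ∘ w = (fun i => ((w i : ℤ) : ZMod p)) := rfl
      have h3 : (Int.castRingHom (ZMod p)) ∘ x = (fun i => ((x i : ℤ) : ZMod p)) := rfl
      rw [h2, h3] at h1
      rw [← h1]
      intro h4
      have h5 : (((w ⬝ᵥ x : ℤ)) : ZMod p) = 0 := h4
      rw [ZMod.intCast_zmod_eq_zero_iff_dvd] at h5
      have h6 := Int.natAbs_dvd_natAbs.2 h5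
      rw [Int.natAbs_natCast] at h6
      exact hdvd h6
    rw [hcard]
    refine ((hk p hp (by omega)).2 _ _ hne).trans ?_
    norm_cast
    refine Nat.card_le_card_of_injective (fun y => ⟨fun ij => y.1 ij.1 ij.2, ?_⟩) ?_
    · exact y.2
    · intro y y' h
      have h1 := congrArg Subtype.val h
      simp only at h1
      apply Subtype.ext
      ext i j
      exact congrFun h1 (i, j)
  have hmain := h H hH2 (fun p => p.Prime ∧ 4 * d ≤ p ∧ ¬ p ∣ (w ⬝ᵥ x).natAbs)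
    (fun p => {v | GoodM (Matrix.of fun i j => v (i, j))
      (fun i => ((x i : ℤ) : ZMod p)) (fun i => ((w i : ℤ) : ZMod p))}) hh
    (hH₁ H hH3 _ hne0 (log_dot d hd c H hH1 x w hx hw hxw)) (fun ij => B ij.1 ij.2)
  rw [hcard] at hmain
  let E₀ : Finset (Fin d × Fin d → ℤ) := (bx (fun ij => B ij.1 ij.2) H).filter (fun v =>
    ∀ p : ℕ, (p.Prime ∧ 4 * d ≤ p ∧ ¬ p ∣ (w ⬝ᵥ x).natAbs) → (p : ℝ) ≤ Real.log H ^ A →
      (fun i => ((v i : ℤ) : ZMod p)) ∉ ({v | GoodM (Matrix.of fun i j => v (i, j))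
      (fun i => ((x i : ℤ) : ZMod p)) (fun i => ((w i : ℤ) : ZMod p))} :
        Set (Fin d × Fin d → ZMod p)))
  let φ : (Fin d × Fin d → ℤ) → Matrix (Fin d) (Fin d) ℤ := fun v =>
    Matrix.of fun i j => v (i, j)
  refine ⟨E₀.image φ, ?_, fun M hM hE => ?_⟩
  · have hci : ((E₀.image φ).card : ℝ) ≤ (E₀.card : ℝ) := Nat.cast_le.2 Finset.card_image_le
    refine le_trans hci (le_trans ?_ hmain)
    norm_cast
    refine card_le_sub _ _ (finite_sub _ _ _) (fun v : Fin d × Fin d → ℤ => v)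
      (fun _ _ h => h) ?_
    intro a ha
    rw [Finset.mem_filter] at ha
    exact ha
  · have hnot : (fun ij : Fin d × Fin d => M ij.1 ij.2) ∉ E₀ := by
      intro hmem
      apply hE
      rw [Finset.mem_image]
      exact ⟨_, hmem, rfl⟩
    by_contra hcon
    apply hnot
    rw [Finset.mem_filter]
    constructor
    · unfold bx
      rw [Fintype.mem_piFinset]
      intro i
      have := abs_le.1 (hM i.1 i.2)
      rw [Finset.mem_Icc]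
      constructor <;> linarith [this.1, this.2]
    · intro p hp hpA hG
      exact hcon ⟨p, hp.1, hpA, good_crt p M x w hG⟩


/-- random matrices, all small vectors at once -/
theorem part_three_uniform (d : ℕ) (hd : 1 ≤ d) (A : ℝ) (hA : 1 < A) :
    ∃ δ : ℝ, 0 < δ ∧ ∃ H₀ : ℕ, ∀ H : ℕ, H₀ ≤ H → ∀ B : Matrix (Fin d) (Fin d) ℤ,
      ∃ E : Finset (Matrix (Fin d) (Fin d) ℤ),
        (E.card : ℝ) ≤ (2 * (H : ℝ) + 1) ^ (d * d) * (H : ℝ) ^ (-δ) ∧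
        ∀ M, (∀ i j, |M i j - B i j| ≤ H) → M ∉ E → ∀ x w : Fin d → ℤ,
          (∀ i, |((x i : ℤ) : ℝ)| ≤ (H : ℝ) ^ δ) → (∀ i, |((w i : ℤ) : ℝ)| ≤ (H : ℝ) ^ δ) →
          w ⬝ᵥ x ≠ 0 → Crt A H (orb M x w) := by
  classical
  obtain ⟨δ, hδ, h⟩ := part_two_uniform d hd A hA
  set δ' : ℝ := δ / (8 * d) with hδ'
  have hdr : (1 : ℝ) ≤ d := by exact_mod_cast hd
  have hδ'0 : 0 < δ' := by positivity
  obtain ⟨H₀, h⟩ := h δ'
  have hev : ∀ᶠ H : ℕ in atTop, ((3 : ℝ) ^ (2 * d)) ≤ (H : ℝ) ^ (δ / 4) := by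
    have : Tendsto (fun y : ℕ => (y : ℝ) ^ (δ / 4)) atTop atTop :=
      (tendsto_rpow_atTop (by positivity)).comp tendsto_natCast_atTop_atTop
    exact this.eventually_ge_atTop _
  obtain ⟨H₁, hH₁⟩ := eventually_atTop.1 hev
  refine ⟨δ', hδ'0, max 1 (max H₀ H₁), fun H hH B => ?_⟩
  have hH1 : 1 ≤ H := (le_max_left _ _).trans hH
  have hH2 : H₀ ≤ H := (le_max_left _ _).trans ((le_max_right _ _).trans hH)
  have hH3 : H₁ ≤ H := (le_max_right _ _).trans ((le_max_right _ _).trans hH)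
  have hHr : (1 : ℝ) ≤ H := by exact_mod_cast hH1
  have hH0 : (0 : ℝ) < H := by linarith
  set K : ℕ := ⌊(H : ℝ) ^ δ'⌋₊ with hK
  have hKle : (K : ℝ) ≤ (H : ℝ) ^ δ' := Nat.floor_le (by positivity)
  have hpow1 : (1 : ℝ) ≤ (H : ℝ) ^ δ' := Real.one_le_rpow hHr hδ'0.le
  let V : Finset (Fin d → ℤ) := Fintype.piFinset (fun _ => Finset.Icc (-(K : ℤ)) K)
  have hVmem : ∀ x : Fin d → ℤ, x ∈ V ↔ ∀ i, |((x i : ℤ) : ℝ)| ≤ (H : ℝ) ^ δ' := by
    intro x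
    rw [Fintype.mem_piFinset]
    refine forall_congr' fun i => ?_
    rw [Finset.mem_Icc, ← abs_le]
    constructor
    · intro hx
      refine le_trans ?_ hKle
      have : ((|x i| : ℤ) : ℝ) ≤ ((K : ℤ) : ℝ) := by exact_mod_cast hx
      rw [Int.cast_abs] at this
      simpa using this
    · intro hx
      have h1 : (((x i).natAbs : ℕ) : ℝ) ≤ (H : ℝ) ^ δ' := by
        have e : (((x i).natAbs : ℕ) : ℝ) = |((x i : ℤ) : ℝ)| := by
          rw [← Int.cast_abs, Int.abs_eq_natAbs]; simp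
        rw [e]; exact hx
      have h2 : (x i).natAbs ≤ K := Nat.le_floor h1
      rw [Int.abs_eq_natAbs]
      exact_mod_cast h2
  have hVcard : (V.card : ℝ) ≤ (3 * (H : ℝ) ^ δ') ^ d := by
    have : V.card = (2 * K + 1) ^ d := by
      rw [Fintype.card_piFinset, Finset.prod_const, Finset.card_univ, Fintype.card_fin, Int.card_Icc]
      congr 1
      omega
    rw [this]
    push_cast
    exact pow_le_pow_left₀ (by positivity) (by linarith) _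
  let F : (Fin d → ℤ) × (Fin d → ℤ) → Finset (Matrix (Fin d) (Fin d) ℤ) := fun xw =>
    if hh : (∀ i, |((xw.1 i : ℤ) : ℝ)| ≤ (H : ℝ) ^ δ') ∧ (∀ i, |((xw.2 i : ℤ) : ℝ)| ≤ (H : ℝ) ^ δ') ∧
      xw.2 ⬝ᵥ xw.1 ≠ 0 then (h H hH2 xw.1 xw.2 hh.1 hh.2.1 hh.2.2 B).choose else ∅
  have hF1 : ∀ xw, ((F xw).card : ℝ) ≤ (2 * (H : ℝ) + 1) ^ (d * d) * (H : ℝ) ^ (-δ) := by
    intro xw
    by_cases hh : (∀ i, |((xw.1 i : ℤ) : ℝ)| ≤ (H : ℝ) ^ δ') ∧
      (∀ i, |((xw.2 i : ℤ) : ℝ)| ≤ (H : ℝ) ^ δ') ∧ xw.2 ⬝ᵥ xw.1 ≠ 0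
    · simp only [F, dif_pos hh]
      exact (h H hH2 xw.1 xw.2 hh.1 hh.2.1 hh.2.2 B).choose_spec.1
    · simp only [F, dif_neg hh]
      simp only [Finset.card_empty, Nat.cast_zero]
      positivity
  refine ⟨(V ×ˢ V).biUnion F, ?_, fun M hM hME x w hx hw hxw => ?_⟩
  · calc (((V ×ˢ V).biUnion F).card : ℝ) ≤ ∑ xw ∈ V ×ˢ V, ((F xw).card : ℝ) := by
          exact_mod_cast Finset.card_biUnion_le
      _ ≤ ∑ _xw ∈ V ×ˢ V, (2 * (H : ℝ) + 1) ^ (d * d) * (H : ℝ) ^ (-δ) :=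
          Finset.sum_le_sum fun xw _ => hF1 xw
      _ = (2 * (H : ℝ) + 1) ^ (d * d) * (((V.card : ℝ) * V.card) * (H : ℝ) ^ (-δ)) := by
          rw [Finset.sum_const, Finset.card_product, nsmul_eq_mul]; push_cast; ring
      _ ≤ (2 * (H : ℝ) + 1) ^ (d * d) * (H : ℝ) ^ (-δ') := by
          apply mul_le_mul_of_nonneg_left _ (by positivity)
          have a1 : (V.card : ℝ) * V.card ≤ 3 ^ (2 * d) * (H : ℝ) ^ (δ / 4) := by
            calc (V.card : ℝ) * V.card ≤ (3 * (H : ℝ) ^ δ') ^ d * (3 * (H : ℝ) ^ δ') ^ d :=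
                  mul_le_mul hVcard hVcard (by positivity) (by positivity)
              _ = 3 ^ (2 * d) * ((H : ℝ) ^ δ') ^ (2 * d) := by ring
              _ = 3 ^ (2 * d) * (H : ℝ) ^ (δ / 4) := by
                  congr 1
                  rw [← Real.rpow_natCast ((H : ℝ) ^ δ') (2 * d), ← Real.rpow_mul hH0.le]
                  congr 1
                  rw [hδ']
                  push_cast
                  field_simp
                  ring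
          have a2 : δ' ≤ δ / 2 := by
            rw [hδ', div_le_div_iff₀ (by positivity) (by norm_num)]
            nlinarith
          calc (V.card : ℝ) * V.card * (H : ℝ) ^ (-δ)
              ≤ (3 ^ (2 * d) * (H : ℝ) ^ (δ / 4)) * (H : ℝ) ^ (-δ) :=
                mul_le_mul_of_nonneg_right a1 (by positivity)
            _ ≤ ((H : ℝ) ^ (δ / 4) * (H : ℝ) ^ (δ / 4)) * (H : ℝ) ^ (-δ) := by
                apply mul_le_mul_of_nonneg_right _ (by positivity)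
                exact mul_le_mul_of_nonneg_right (hH₁ H hH3) (by positivity)
            _ = (H : ℝ) ^ (-(δ / 2)) := by
                rw [← Real.rpow_add hH0, ← Real.rpow_add hH0]; congr 1; ring
            _ ≤ (H : ℝ) ^ (-δ') := Real.rpow_le_rpow_of_exponent_le hHr (by linarith)
  · have hni : M ∉ F (x, w) := fun hmem => hME (Finset.mem_biUnion.2
      ⟨(x, w), Finset.mem_product.2 ⟨(hVmem x).2 hx, (hVmem w).2 hw⟩, hmem⟩)
    have hh : (∀ i, |(((x, w).1 i : ℤ) : ℝ)| ≤ (H : ℝ) ^ δ') ∧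
      (∀ i, |(((x, w).2 i : ℤ) : ℝ)| ≤ (H : ℝ) ^ δ') ∧ (x, w).2 ⬝ᵥ (x, w).1 ≠ 0 := ⟨hx, hw, hxw⟩
    simp only [F, dif_pos hh] at hni
    exact (h H hH2 x w hx hw hxw B).choose_spec.2 M hM hni

end Pool.Agent.R77.Orb
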