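import Pool.Agent.R77.Orb.Main

set_option autoImplicit false

/-!
# The sieve with a set of primes which depends on `H` (helper77)
(adapted from `Pool.Agent.H684R3.Smo.Task5`)
-/

namespace Pool.Agent.R77.Orb
open Matrix Filter Pool.Agent.H884R2.Sko Pool.Agent.H684R3.Smo

set_option maxHeartbeats 2000000 in
/-- The choice of the parameters. -/
lemma t5_param' (κ θ A ε η δ t : ℝ) (N : ℕ) (hκ : 0 < κ) (hθ : 0 < θ) (hA : 0 < A)
    (hε : 0 < ε) (hAε : A * θ = 1 + 2 * ε) (hη : η = 1 / (16 * A)) (hδ1 : δ ≤ ε * η / 8)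
    (hδ0 : 0 < δ)
    (hN : ((⌊t ^ A⌋₊ : ℕ) : ℝ) ^ θ ≤ (N : ℝ))
    (c1 : Real.exp 1 ≤ t) (c2 : 2 * (((0 : ℕ) : ℝ) + 1) ≤ t ^ A) (c3 : 2 * Real.log t ≤ η * t)
    (c4 : η ≤ Real.log t) (c5 : 2 * (2 : ℝ) ^ θ ≤ t ^ ε) (c6 : 1 / κ ^ 2 ≤ t ^ (ε / 2))
    (c7 : Real.log 2 ≤ ε * η / 8 * t) (c8 : |Real.log κ| ≤ A * Real.log t) :
    ∃ m K : ℕ, m * K ≤ N ∧ 0 < K ∧
      ((⌊t ^ A⌋₊ : ℕ) : ℝ) ^ (2 * m) ≤ Real.exp (t / 8) ∧ Real.exp (-(t / 8)) ≤ κ ^ (2 * m) ∧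
      2 * Real.exp (δ * t) ≤ (κ ^ 2 * K) ^ m := by
  have hη0 : 0 < η := by rw [hη]; positivity
  have hAη : A * η = 1 / 16 := by rw [hη]; field_simp
  have ht0 : 0 < t := lt_of_lt_of_le (Real.exp_pos 1) c1
  have ht1 : 1 ≤ t := le_trans (by have := Real.add_one_le_exp (1 : ℝ); linarith) c1
  have hs1 : 1 ≤ Real.log t := (Real.le_log_iff_exp_le ht0).2 c1
  set s := Real.log t with hs
  have hs0 : 0 < s := by linarith
  have hts : t = Real.exp s := (Real.exp_log ht0).symm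
  set y := ⌊t ^ A⌋₊ with hy
  have hy1 : (y : ℝ) ≤ t ^ A := Nat.floor_le (by positivity)
  have hy2 : t ^ A < y + 1 := Nat.lt_floor_add_one _
  have hy4 : t ^ A / 2 ≤ y := by
    have : (2 : ℝ) ≤ t ^ A := by simpa using c2
    linarith
  set m := ⌊η * t / s⌋₊ with hm
  have hm1 : (m : ℝ) ≤ η * t / s := Nat.floor_le (by positivity)
  have hm2 : η * t / s < m + 1 := Nat.lt_floor_add_one _
  have hm3 : (2 : ℝ) ≤ η * t / s := by
    rw [le_div_iff₀ hs0]; exact c3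
  have hm4 : η * t / s / 2 ≤ m := by linarith
  have hm5 : (m : ℝ) * s ≤ η * t := by
    rwa [le_div_iff₀ hs0] at hm1
  have hm6 : η * t / 2 ≤ (m : ℝ) * s := by
    have : η * t / s / 2 * s ≤ m * s := mul_le_mul_of_nonneg_right hm4 hs0.le
    have h2 : η * t / s / 2 * s = η * t / 2 := by field_simp
    linarith
  have hm7 : 0 < m := by
    have : (0 : ℝ) < m := by linarith
    exact_mod_cast this
  have hm8 : (m : ℝ) ≤ t := by
    refine le_trans hm1 ?_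
    rw [div_le_iff₀ hs0]
    nlinarith
  set K := N / m with hK
  have hK1 : N < m * (K + 1) := Nat.lt_mul_div_succ N hm7
  have hK1' : (N : ℝ) < m * (K + 1) := by exact_mod_cast hK1
  have hte : 0 < t ^ ε := Real.rpow_pos_of_pos ht0 _
  have hte1 : 1 ≤ t ^ ε := Real.one_le_rpow ht1 hε.le
  have h2θ : (0 : ℝ) < 2 ^ θ := by positivity
  have hN1 : 2 * t * t ^ ε ≤ (N : ℝ) := by
    refine le_trans ?_ hN
    have h1 : (t ^ A / 2) ^ θ ≤ (y : ℝ) ^ θ := Real.rpow_le_rpow (by positivity) hy4 hθ.le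
    refine le_trans ?_ h1
    rw [Real.div_rpow (by positivity) (by norm_num), ← Real.rpow_mul ht0.le, hAε,
      le_div_iff₀ h2θ, Real.rpow_add ht0, Real.rpow_one, two_mul ε, Real.rpow_add ht0]
    have h3 : 2 * t * t ^ ε * 2 ^ θ = (t * t ^ ε) * (2 * 2 ^ θ) := by ring
    have h4 : t * (t ^ ε * t ^ ε) = (t * t ^ ε) * t ^ ε := by ring
    rw [h3, h4]
    exact mul_le_mul_of_nonneg_left c5 (by positivity)
  have hK2 : t ^ ε ≤ K := by
    have h1 : 2 * t * t ^ ε < t * (K + 1) := by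
      refine lt_of_le_of_lt hN1 (lt_of_lt_of_le hK1' ?_)
      exact mul_le_mul_of_nonneg_right hm8 (by positivity)
    have h2 : 2 * t ^ ε < K + 1 := by
      have h3 : t * (2 * t ^ ε) < t * (K + 1) := by linarith
      exact lt_of_mul_lt_mul_left h3 ht0.le
    linarith
  have hK3 : 0 < K := by
    have : (0 : ℝ) < K := by linarith
    exact_mod_cast this
  refine ⟨m, K, Nat.mul_div_le N m, hK3, ?_, ?_, ?_⟩
  · have h1 : (y : ℝ) ^ (2 * m) ≤ (t ^ A) ^ (2 * m) := pow_le_pow_left₀ (by positivity) hy1 _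
    refine le_trans h1 ?_
    rw [Real.rpow_def_of_pos ht0, ← Real.exp_nat_mul]
    apply Real.exp_le_exp.2
    push_cast
    have : 2 * (m : ℝ) * (Real.log t * A) = 2 * A * (m * s) := by rw [hs]; ring
    rw [this]
    nlinarith
  · rw [← Real.exp_log hκ, ← Real.exp_nat_mul]
    apply Real.exp_le_exp.2
    push_cast
    have h1 : -(A * s) ≤ Real.log κ := by
      have := neg_abs_le (Real.log κ)
      linarith
    have h2 : (0 : ℝ) ≤ m := Nat.cast_nonneg _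
    have h3 : 2 * (m : ℝ) * -(A * s) ≤ 2 * (m : ℝ) * Real.log κ :=
      mul_le_mul_of_nonneg_left h1 (by positivity)
    nlinarith
  · have h1 : t ^ (ε / 2) ≤ κ ^ 2 * K := by
      have h2 : t ^ ε = t ^ (ε / 2) * t ^ (ε / 2) := by
        rw [← Real.rpow_add ht0]; congr 1; ring
      have h3 : 0 < t ^ (ε / 2) := Real.rpow_pos_of_pos ht0 _
      have h4 : κ ^ 2 * (t ^ (ε / 2) * t ^ (ε / 2)) ≤ κ ^ 2 * K := by
        rw [← h2]; exact mul_le_mul_of_nonneg_left hK2 (by positivity)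
      have h5 : 1 ≤ κ ^ 2 * t ^ (ε / 2) := by
        rw [div_le_iff₀ (by positivity)] at c6
        linarith
      calc t ^ (ε / 2) = 1 * t ^ (ε / 2) := by ring
        _ ≤ (κ ^ 2 * t ^ (ε / 2)) * t ^ (ε / 2) := mul_le_mul_of_nonneg_right h5 h3.le
        _ = κ ^ 2 * (t ^ (ε / 2) * t ^ (ε / 2)) := by ring
        _ ≤ κ ^ 2 * K := h4
    have h6 : (t ^ (ε / 2)) ^ m ≤ (κ ^ 2 * K) ^ m := pow_le_pow_left₀ (by positivity) h1 _
    refine le_trans ?_ h6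
    rw [Real.rpow_def_of_pos ht0, ← Real.exp_nat_mul]
    have h7 : (2 : ℝ) = Real.exp (Real.log 2) := (Real.exp_log (by norm_num)).symm
    have h8 : 2 * Real.exp (δ * t) = Real.exp (Real.log 2 + δ * t) := by
      rw [Real.exp_add, ← h7]
    rw [h8]
    apply Real.exp_le_exp.2
    have h9 : (m : ℝ) * (Real.log t * (ε / 2)) = ε / 2 * (m * s) := by rw [hs]; ring
    rw [h9]
    have h10 : δ * t ≤ ε * η / 8 * t := mul_le_mul_of_nonneg_right hδ1 ht0.le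
    have h11 : ε / 2 * (η * t / 2) ≤ ε / 2 * (m * s) :=
      mul_le_mul_of_nonneg_left hm6 (by positivity)
    nlinarith

/-- The sieve, uniform in the sets of residues and in the set of primes. -/
theorem t5v (ι : Type) [Fintype ι] [DecidableEq ι] (κ θ A : ℝ)
    (hκ : 0 < κ) (hθ : 0 < θ) (hA : 0 < A) (hAθ : 1 < A * θ) :
    ∃ δ : ℝ, 0 < δ ∧ ∃ H₀ : ℕ, ∀ H : ℕ, H₀ ≤ H → ∀ (P : ℕ → Prop) (G : ∀ p : ℕ, Set (ι → ZMod p)),
      (∀ p, P p → p.Prime ∧ κ * (p : ℝ) ^ (Fintype.card ι) ≤ (Nat.card (G p) : ℝ)) →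
      (((⌊Real.log H ^ A⌋₊ : ℕ) : ℝ) ^ θ ≤
        (Nat.card {p : ℕ // P p ∧ p ≤ ⌊Real.log H ^ A⌋₊} : ℝ)) →
      ∀ b : ι → ℤ,
      (Nat.card {v : ι → ℤ // v ∈ bx b H ∧ ∀ p, P p → (p : ℝ) ≤ Real.log H ^ A →
        (fun i => (v i : ZMod p)) ∉ G p} : ℝ) ≤
        (2 * (H : ℝ) + 1) ^ (Fintype.card ι) * (H : ℝ) ^ (-δ) := by
  set ε : ℝ := (A * θ - 1) / 2 with hε
  have hε0 : 0 < ε := by rw [hε]; linarith
  set η : ℝ := 1 / (16 * A) with hη
  have hη0 : 0 < η := by positivity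
  set δ : ℝ := min (ε * η / 8) (1 / 2) with hδ
  have hδ0 : 0 < δ := lt_min (by positivity) (by norm_num)
  have hlogH : Tendsto (fun H : ℕ => Real.log (H : ℝ)) atTop atTop :=
    Real.tendsto_log_atTop.comp tendsto_natCast_atTop_atTop
  have hev := hlogH.eventually (t5_ev 0 κ θ A ε η
    ((Fintype.card ι : ℝ) * 2 ^ (Fintype.card ι) * 2) hA hε0 hη0)
  obtain ⟨H₀, hH₀⟩ := eventually_atTop.1 hev
  refine ⟨δ, hδ0, H₀, fun H hH P G hP hN b => ?_⟩
  obtain ⟨c1, c2, c3, c4, c5, c6, c7, c8, c9⟩ := hH₀ H hH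
  have ht0 : 0 < Real.log (H : ℝ) := lt_of_lt_of_le (Real.exp_pos 1) c1
  have hHpos : (0 : ℝ) < H := by
    rcases Nat.eq_zero_or_pos H with h | h
    · subst h; simp at ht0
    · exact_mod_cast h
  obtain ⟨m, K, hmK, hK, p1, p2, p3⟩ := t5_param' κ θ A ε η δ (Real.log H)
    (Nat.card {p : ℕ // P p ∧ p ≤ ⌊Real.log H ^ A⌋₊}) hκ hθ hA hε0 (by rw [hε]; ring) hη
    (min_le_left _ _) hδ0 hN c1 c2 c3 c4 c5 c6 c7 c8
  have hyt : ((⌊Real.log H ^ A⌋₊ : ℕ) : ℝ) ≤ Real.log H ^ A := Nat.floor_le (by positivity)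
  set y := ⌊Real.log H ^ A⌋₊ with hy
  have hfin : Finite {p : ℕ // P p ∧ p ≤ y} :=
    (Set.Finite.subset (Set.finite_le_nat y) (fun p hp => hp.2) :
      ({p : ℕ | P p ∧ p ≤ y}).Finite).to_subtype
  obtain ⟨f⟩ : Nonempty (Fin m × Fin K ↪ {p : ℕ // P p ∧ p ≤ y}) := by
    have := Fintype.ofFinite {p : ℕ // P p ∧ p ≤ y}
    refine Function.Embedding.nonempty_of_card_le ?_
    rw [Fintype.card_prod, Fintype.card_fin, Fintype.card_fin, ← Nat.card_eq_fintype_card]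
    exact hmK
  have hexp : Real.exp (Real.log (H : ℝ)) = H := Real.exp_log hHpos
  have hyH : y ^ (2 * m) ≤ 2 * H + 1 := by
    have h1 : (y : ℝ) ^ (2 * m) ≤ 2 * H + 1 := by
      refine le_trans p1 ?_
      have h2 : Real.exp (Real.log (H : ℝ) / 8) ≤ Real.exp (Real.log (H : ℝ)) :=
        Real.exp_le_exp.2 (by linarith)
      rw [hexp] at h2
      linarith
    exact_mod_cast h1
  have hmain := (t4 (t3 t1 t2)) ι G κ hκ m K y H
    (fun x => ((f x : {p : ℕ // P p ∧ p ≤ y}) : ℕ))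
    (Subtype.val_injective.comp f.injective)
    (fun x => ⟨(hP _ (f x).2.1).1, (f x).2.2, (hP _ (f x).2.1).2⟩) hyH b
  have hfin2 : Finite {v : ι → ℤ // v ∈ bx b H ∧
      ∀ x : Fin m × Fin K, (fun i => (v i : ZMod ((f x : {p : ℕ // P p ∧ p ≤ y}) : ℕ))) ∉
        G ((f x : {p : ℕ // P p ∧ p ≤ y}) : ℕ)} :=
    Finite.of_injective (fun v => (⟨v.1, v.2.1⟩ : {v // v ∈ bx b H})) (by
      intro v w hvw
      exact Subtype.ext (congrArg (fun z : {v // v ∈ bx b H} => z.1) hvw))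
  have hcard : (Nat.card {v : ι → ℤ // v ∈ bx b H ∧ ∀ p, P p → (p : ℝ) ≤ Real.log H ^ A →
      (fun i => (v i : ZMod p)) ∉ G p} : ℝ) ≤
      (Nat.card {v : ι → ℤ // v ∈ bx b H ∧
      ∀ x : Fin m × Fin K, (fun i => (v i : ZMod ((f x : {p : ℕ // P p ∧ p ≤ y}) : ℕ))) ∉
        G ((f x : {p : ℕ // P p ∧ p ≤ y}) : ℕ)} : ℝ) := by
    have : Nat.card {v : ι → ℤ // v ∈ bx b H ∧ ∀ p, P p → (p : ℝ) ≤ Real.log H ^ A →
      (fun i => (v i : ZMod p)) ∉ G p} ≤ Nat.card {v : ι → ℤ // v ∈ bx b H ∧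
      ∀ x : Fin m × Fin K, (fun i => (v i : ZMod ((f x : {p : ℕ // P p ∧ p ≤ y}) : ℕ))) ∉
        G ((f x : {p : ℕ // P p ∧ p ≤ y}) : ℕ)} := by
      refine Nat.card_le_card_of_injective (fun v => ⟨v.1, v.2.1, fun x => v.2.2 _ (f x).2.1
        (le_trans (by exact_mod_cast (f x).2.2) hyt)⟩) ?_
      intro v w hvw
      have h5 := Subtype.ext_iff.1 hvw
      exact Subtype.ext h5
    exact_mod_cast this
  refine t5_final (Fintype.card ι) m K y _ (2 * (H : ℝ) + 1) κ δ (Real.log H) H hκ hK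
    (min_le_right _ _) ht0 hexp.symm (by linarith) c9 p1 p2 p3 ?_
  exact le_trans (mul_le_mul_of_nonneg_right hcard (by positivity)) hmain

/-- the number of prime divisors -/
theorem card_primeDvd (N : ℕ) (hN : N ≠ 0) (y : ℕ) :
    (Nat.card {p : ℕ // (p.Prime ∧ p ∣ N) ∧ p ≤ y} : ℝ) * Real.log 2 ≤ Real.log N := by
  have h1 : Nat.card {p : ℕ // (p.Prime ∧ p ∣ N) ∧ p ≤ y} ≤ N.primeFactors.card := by
    rw [← Nat.card_eq_finsetCard]
    apply Nat.card_le_card_of_injective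
      (fun p : {p : ℕ // (p.Prime ∧ p ∣ N) ∧ p ≤ y} =>
        (⟨p.1, Nat.mem_primeFactors.2 ⟨p.2.1.1, p.2.1.2, hN⟩⟩ : N.primeFactors))
    intro p q h
    exact Subtype.ext (congrArg (fun z : N.primeFactors => z.1) h)
  have h2 : 2 ^ N.primeFactors.card ≤ N := by
    calc 2 ^ N.primeFactors.card ≤ ∏ p ∈ N.primeFactors, p :=
          Finset.pow_card_le_prod _ _ _ (fun p hp => (Nat.prime_of_mem_primeFactors hp).two_le)
      _ ≤ N := Nat.le_of_dvd (Nat.pos_of_ne_zero hN) (Nat.prod_primeFactors_dvd N)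
  have h3 : (2 : ℝ) ^ Nat.card {p : ℕ // (p.Prime ∧ p ∣ N) ∧ p ≤ y} ≤ N := by
    have : 2 ^ Nat.card {p : ℕ // (p.Prime ∧ p ∣ N) ∧ p ≤ y} ≤ N :=
      (Nat.pow_le_pow_right (by norm_num) h1).trans h2
    exact_mod_cast this
  have h4 := Real.log_le_log (by positivity) h3
  rwa [Real.log_pow] at h4

end Pool.Agent.R77.Orb
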